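import Mathlib
import Pool.Agent.Lib.MP_9de7c4_an.Defs
import Pool.Agent.Lib.MP_9de7c4_an.Proof

set_option autoImplicit false

open Polynomial

namespace Pool.Agent.Results.MP_9de7c4_an.Unbounded

open Pool.Agent.Lib.MP_9de7c4_an

/-- For every `M` there is a trim self-inversive polynomial `p` of darga `4 M + 2`, with real
coefficients, such that `S(p)` has at least `M + 1` connected components.
So the number of components is unbounded. -/
theorem result : ∀ M : ℕ, ∃ p : ℂ[X], p ≠ 0 ∧ SelfInversive p ∧ Trim p ∧ darga p = 4 * M + 2 ∧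
    (∀ j, (p.coeff j).im = 0) ∧ ((M + 1 : ℕ) : ℕ∞) ≤ c p :=
  main

end Pool.Agent.Results.MP_9de7c4_an.Unbounded
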